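import Pool.Agent.helper53.ORT.Spec

set_option autoImplicit false

/-!
Row ort:LIN (MP_561ff4_al): commutators of the right trace for a linear similarity.
-/

namespace Pool.Agent.ORT

open Module Pool.Agent.GS

theorem LIN (zn : ZN_stmt) (nq : NQ_stmt) (qd : QD_stmt) (trc : TRC_stmt) (trn : TRN_stmt)
    (dm : DM_stmt) : LIN_stmt := by
  intro F V _ _ _ _ _ B hc hB hn y ν hy hns
  have h2 : (2 : F) ≠ 0 := Ring.two_ne_zero hc
  have hν : ν ≠ 0 := hy.ne
  have quad : ∀ r : ℕ, (r = 2 ∨ (r.Prime ∧ r ≠ 2 ∧ Dv (Nat.card F) r 1)) → ∀ μ : F,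
      (∀ v, y (y v) = (2 * μ) • y v - ν • v) → ∃ T : F, Dr r T ∧ Cm B y T := by
    intro r hr μ hμ
    obtain ⟨T, _, ⟨s, hs⟩, hT⟩ := trc hc r hr ν hν
    have h := qd B hc hB (by omega) y ν hy hns μ hμ s
    have e : 2 + s ^ 2 / ν = T := by
      rw [pow_two, ← hs, mul_div_cancel_right₀ _ hν]
      ring
    rw [e] at h
    exact ⟨T, hT, h⟩
  refine ⟨?_, ?_⟩
  · rcases zn B hc hB (by omega) y ν hy 0 with ⟨a, ha, hay⟩ | ⟨μ, hμ⟩
    · have e : 4 * (0 : F) ^ 2 / ν - 2 = -2 := by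
        rw [zero_pow two_ne_zero, mul_zero, zero_div, zero_sub]
      have hne : 4 * (0 : F) ^ 2 / ν - 2 ≠ 2 := by
        rw [e]
        intro h
        have h4 : (2 : F) * 2 = 0 := by linear_combination -h
        rcases mul_eq_zero.mp h4 with h5 | h5
        · exact h2 h5
        · exact h2 h5
      have h := nq B hc hB hn y ν hy a 0 ha hay hne
      rw [e] at h
      exact ⟨-2, (dm hc).1, h⟩
    · exact quad 2 (Or.inl rfl) μ hμ
  · intro r hr hr2 hD
    obtain ⟨T, hT2, ⟨s, hs⟩, hT⟩ := trn hc r hr hr2 hD ν hν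
    have e : 4 * (s / 2) ^ 2 / ν - 2 = T := by
      have e1 : 4 * (s / 2) ^ 2 = s * s := by
        rw [div_pow, pow_two, pow_two, mul_div_assoc']
        rw [div_eq_iff (mul_ne_zero h2 h2)]
        ring
      rw [e1, ← hs, mul_div_cancel_right₀ _ hν]
      ring
    rcases zn B hc hB (by omega) y ν hy (s / 2) with ⟨a, ha, hay⟩ | ⟨μ, hμ⟩
    · have h := nq B hc hB hn y ν hy a (s / 2) ha hay (by rw [e]; exact hT2)
      rw [e] at h
      exact ⟨T, hT, h⟩
    · exact quad r (Or.inr ⟨hr, hr2, hD⟩) μ hμ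

end Pool.Agent.ORT
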